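import Pool.Agent.H1.Col.Pack

/-! Packed verification of descents of the accelerated Collatz map: the functions evaluated by the kernel. -/

namespace H82Col

open H1Col

def msk : ℕ := 2 ^ 64 - 1
/-- `pk 64 1 480` -/
def ones0 : ℕ := (2 ^ 30720 - 1) / msk
/-- `pk 64 1 2400` -/
def ones : ℕ := (2 ^ 153600 - 1) / msk
/-- `pk 64 id 480` -/
def idx0 : ℕ := (479 * 2 ^ 30720 + 1 - ones0) / msk
/-- `pk 30720 1 5` -/
def rep : ℕ := (2 ^ 153600 - 1) / (2 ^ 30720 - 1)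
/-- `pk 30720 e 5` -/
def five (a b c d e : ℕ) : ℕ :=
  a + 2 ^ 30720 * (b + 2 ^ 30720 * (c + 2 ^ 30720 * (d + 2 ^ 30720 * e)))
def idx9 : ℕ := 9 * idx0 * rep
def high : ℕ := 2 ^ 63 * ones
def tops : ℕ := (15 * 2 ^ 60) * ones

/-- the packed indices `i < 4320` with `(r + 5 i) % 9 ∈ {0,1,3,6,7}`. -/
def idx (r : ℕ) : ℕ :=
  idx9 + ones0 * five (7 * r % 9) ((7 * r + 2) % 9) ((7 * r + 3) % 9) ((7 * r + 5) % 9)
    ((7 * r + 6) % 9)

def vs (N : ℕ) : ℕ := vstep msk ones N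

/-- one step of `T`, kernel friendly. -/
def st (y : ℕ) : ℕ :=
  Nat.rec (Nat.shiftRight y 1) (fun _ _ => Nat.shiftRight (Nat.add (Nat.mul 3 y) 1) 1) (Nat.land y 1)

/-- `∃ s ≤ m, T^[s] y ≤ h` -/
def ind (h : ℕ) (m : ℕ) : ℕ → Bool :=
  Nat.rec (fun y => Nat.ble y h) (fun _ ih y => cond (Nat.ble y h) true (ih (st y))) m

/-- the remaining fields (bits of `U`) are treated individually; `m` = level, `j` = index of the first field. -/
def ext (HH N : ℕ) (m : ℕ) : ℕ → ℕ → Bool :=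
  Nat.rec (fun j U => Nat.rec true (fun _ _ =>
      ind (Nat.land (Nat.shiftRight HH (Nat.mul 64 j)) 9223372036854775807) 235
        (Nat.land (Nat.shiftRight N (Nat.mul 64 j)) msk)) U)
    (fun m ih j U => Nat.rec true (fun _ _ =>
      cond (ih j (Nat.mod U (Nat.pow 2 (Nat.mul 64 (Nat.pow 2 m)))))
        (ih (Nat.add j (Nat.pow 2 m)) (Nat.shiftRight U (Nat.mul 64 (Nat.pow 2 m)))) false) U) m

/-- five steps -/
def vs5 (N : ℕ) : ℕ := vs (vs (vs (vs (vs N))))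

/-- the main loop, for abstract parameters. -/
def loopG (vf : ℕ → ℕ) (hi tp HH : ℕ) (K : ℕ → ℕ → Bool) (m : ℕ) : ℕ → ℕ → Bool :=
  Nat.rec (fun N F => K N F)
    (fun _ ih N F =>
      Nat.rec (ih (vf N) (Nat.lor F (Nat.land (Nat.sub HH (vf N)) hi)))
        (fun _ _ => false) (Nat.land (vf N) tp)) m

def loop (HH : ℕ) (K : ℕ → ℕ → Bool) (m : ℕ) : ℕ → ℕ → Bool := loopG vs5 high tops HH K m

def leaf (u v q : ℕ) : Bool :=
  loop (2 ^ 16 * idx (u % 9) + (u / 2 * ones + high))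
    (fun N F => ext (2 ^ 16 * idx (u % 9) + (u / 2 * ones + high)) N 12 0 (Nat.xor high F)) 30
    (q * idx (u % 9) + v * ones) 0

/-- splitting of residue classes -/
def dfs (lf : ℕ → ℕ → ℕ → Bool) (n : ℕ) : ℕ → ℕ → ℕ → ℕ → ℕ → Bool :=
  Nat.rec (fun _ _ u v q => lf u v q)
    (fun _ ih P Q u v q =>
      cond (Nat.ble (Nat.mul 30 q) (Nat.mul 29 P))
        (cond (Nat.ble (Nat.mul 30 (Nat.add v (Nat.mul q Q))) (Nat.mul 29 (Nat.add u 1048576)))
          true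
          (cond (ih (Nat.mul 2 P) (Nat.div Q 2) u (st v) (Nat.rec q (fun _ _ => Nat.mul 3 q) (Nat.land v 1)))
            (ih (Nat.mul 2 P) (Nat.div Q 2) (Nat.add u P) (st (Nat.add v q))
              (Nat.rec q (fun _ _ => Nat.mul 3 q) (Nat.land (Nat.add v q) 1))) false))
        (cond (ih (Nat.mul 2 P) (Nat.div Q 2) u (st v) (Nat.rec q (fun _ _ => Nat.mul 3 q) (Nat.land v 1)))
            (ih (Nat.mul 2 P) (Nat.div Q 2) (Nat.add u P) (st (Nat.add v q))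
              (Nat.rec q (fun _ _ => Nat.mul 3 q) (Nat.land (Nat.add v q) 1))) false)) n

/-- `T^[m] y` and `3^od`, kernel friendly. -/
def iterT (m : ℕ) : ℕ → ℕ := Nat.rec (fun y => y) (fun _ ih y => ih (st y)) m
def iterQ (m : ℕ) : ℕ → ℕ → ℕ :=
  Nat.rec (fun _ q => q) (fun _ ih y q => ih (st y) (Nat.rec q (fun _ _ => Nat.mul 3 q) (Nat.land y 1))) m

/-- the check of the class `u` modulo `2^13`. -/
def root (u : ℕ) : Bool := dfs leaf 4 8192 128 u (iterT 13 u) (iterQ 13 u 1)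

end H82Col
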