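import Pool.Agent.H82.Col.Sound

/-! Soundness of the splitting of residue classes. -/

namespace H82Col

open H1Col Finset

/-- all `x` in the range which are `u` modulo `2^k` are good. -/
def Cov (k u : ℕ) : Prop := ∀ x, 2 ^ 20 ≤ x → x < 566231040 → x % 2 ^ k = u → Good x

theorem dfs_zero (lf : ℕ → ℕ → ℕ → Bool) (P Q u v q : ℕ) : dfs lf 0 P Q u v q = lf u v q := rfl

theorem dfs_succ (lf : ℕ → ℕ → ℕ → Bool) (n P Q u v q : ℕ) : dfs lf (n + 1) P Q u v q =
    cond (Nat.ble (Nat.mul 30 q) (Nat.mul 29 P))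
        (cond (Nat.ble (Nat.mul 30 (Nat.add v (Nat.mul q Q))) (Nat.mul 29 (Nat.add u 1048576)))
          true
          (cond (dfs lf n (Nat.mul 2 P) (Nat.div Q 2) u (st v) (Nat.rec q (fun _ _ => Nat.mul 3 q) (Nat.land v 1)))
            (dfs lf n (Nat.mul 2 P) (Nat.div Q 2) (Nat.add u P) (st (Nat.add v q))
              (Nat.rec q (fun _ _ => Nat.mul 3 q) (Nat.land (Nat.add v q) 1))) false))
        (cond (dfs lf n (Nat.mul 2 P) (Nat.div Q 2) u (st v) (Nat.rec q (fun _ _ => Nat.mul 3 q) (Nat.land v 1)))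
            (dfs lf n (Nat.mul 2 P) (Nat.div Q 2) (Nat.add u P) (st (Nat.add v q))
              (Nat.rec q (fun _ _ => Nat.mul 3 q) (Nat.land (Nat.add v q) 1))) false) := rfl

theorem q_eq (v q : ℕ) : (Nat.rec q (fun _ _ => Nat.mul 3 q) (Nat.land v 1) : ℕ) = q * 3 ^ (v % 2) := by
  have hl : Nat.land v 1 = v % 2 := land_one_eq v
  rw [hl]
  rcases Nat.mod_two_eq_zero_or_one v with h | h
  · rw [h]; simp
  · rw [h]
    show 3 * q = q * 3 ^ 1
    ring

theorem stop_sound {k u : ℕ} (hk : k ≤ 17) (hu : u < 2 ^ k)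
    (h1 : 30 * 3 ^ od u k ≤ 29 * 2 ^ k)
    (h2 : 30 * (T^[k] u + 3 ^ od u k * 2 ^ (20 - k)) ≤ 29 * (u + 1048576)) : Cov k u := by
  intro x hx _ hmod
  right; right; left
  refine ⟨k, hk, ?_⟩
  have hxe : x = u + 2 ^ k * (x / 2 ^ k) := by
    have := Nat.mod_add_div x (2 ^ k)
    rw [hmod] at this
    exact this.symm
  have hpow : 2 ^ k * 2 ^ (20 - k) = 2 ^ 20 := by
    rw [← pow_add]; congr 1; omega
  have hi : 2 ^ (20 - k) ≤ x / 2 ^ k := by
    rw [Nat.le_div_iff_mul_le (by positivity), mul_comm, hpow]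
    exact hx
  obtain ⟨j, hj⟩ := Nat.exists_eq_add_of_le hi
  rw [hxe, class_iter, hj]
  have e1 : 3 ^ od u k * (2 ^ (20 - k) + j) = 3 ^ od u k * 2 ^ (20 - k) + 3 ^ od u k * j := by ring
  have e2 : 2 ^ k * (2 ^ (20 - k) + j) = 1048576 + 2 ^ k * j := by
    rw [Nat.mul_add, hpow]
    norm_num
  rw [e1, e2]
  have h3 : 30 * (3 ^ od u k * j) ≤ 29 * (2 ^ k * j) := by
    have := Nat.mul_le_mul_right j h1
    calc 30 * (3 ^ od u k * j) = 30 * 3 ^ od u k * j := by ring
      _ ≤ 29 * 2 ^ k * j := this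
      _ = 29 * (2 ^ k * j) := by ring
  omega

theorem cov_split {k u : ℕ} (h0 : Cov (k + 1) u) (h1 : Cov (k + 1) (u + 2 ^ k)) : Cov k u := by
  intro x hx hxB hmod
  have h : x % 2 ^ (k + 1) = u ∨ x % 2 ^ (k + 1) = u + 2 ^ k := by
    rw [Nat.pow_succ, Nat.mod_mul, hmod]
    rcases Nat.mod_two_eq_zero_or_one (x / 2 ^ k) with e | e
    · left; rw [e]; simp
    · right; rw [e]; simp
  rcases h with h | h
  · exact h0 x hx hxB h
  · exact h1 x hx hxB h

theorem T_class_zero (u k : ℕ) : T^[k + 1] u = st (T^[k] u) := by rw [iter_succ, st_eq]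

theorem class_one (u k : ℕ) : T^[k] (u + 2 ^ k) = T^[k] u + 3 ^ od u k := by
  have := class_iter u k 1
  simpa using this

theorem od_class (u k i : ℕ) : od (u + 2 ^ k * i) k = od u k := by
  induction k generalizing i with
  | zero => rfl
  | succ k ih =>
      have e : u + 2 ^ (k + 1) * i = u + 2 ^ k * (2 * i) := by ring
      rw [od_succ, od_succ, e, ih, class_iter]
      have : 3 ^ od u k * (2 * i) = 2 * (3 ^ od u k * i) := by ring
      rw [this]
      omega

theorem od_one (u k : ℕ) : od (u + 2 ^ k) k = od u k := by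
  have := od_class u k 1
  simpa using this

theorem dfs_sound (lf : ℕ → ℕ → ℕ → Bool) (kk : ℕ) (hkk : kk ≤ 17)
    (hlf : ∀ u, u < 2 ^ kk → lf u (T^[kk] u) (3 ^ od u kk) = true → Cov kk u) :
    ∀ n k u, k + n = kk → u < 2 ^ k →
      dfs lf n (2 ^ k) (2 ^ (20 - k)) u (T^[k] u) (3 ^ od u k) = true → Cov k u := by
  intro n
  induction n with
  | zero =>
      intro k u hk hu h
      have : k = kk := by omega
      subst this
      exact hlf u hu h
  | succ n ih =>
      intro k u hk hu h
      rw [dfs_succ] at h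
      have hsplit : (cond (dfs lf n (Nat.mul 2 (2 ^ k)) (Nat.div (2 ^ (20 - k)) 2) u (st (T^[k] u))
          (Nat.rec (3 ^ od u k) (fun _ _ => Nat.mul 3 (3 ^ od u k)) (Nat.land (T^[k] u) 1)))
            (dfs lf n (Nat.mul 2 (2 ^ k)) (Nat.div (2 ^ (20 - k)) 2) (Nat.add u (2 ^ k))
              (st (Nat.add (T^[k] u) (3 ^ od u k)))
              (Nat.rec (3 ^ od u k) (fun _ _ => Nat.mul 3 (3 ^ od u k))
                (Nat.land (Nat.add (T^[k] u) (3 ^ od u k)) 1))) false) = true → Cov k u := by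
        intro h
        have e1 : Nat.mul 2 (2 ^ k) = 2 ^ (k + 1) := by
          show 2 * 2 ^ k = _
          ring
        have e2 : Nat.div (2 ^ (20 - k)) 2 = 2 ^ (20 - (k + 1)) := by
          show 2 ^ (20 - k) / 2 = _
          have : 20 - k = (20 - (k + 1)) + 1 := by omega
          rw [this, pow_succ]
          simp
        have e3 : Nat.add (T^[k] u) (3 ^ od u k) = T^[k] (u + 2 ^ k) := (class_one u k).symm
        have e4 : Nat.add u (2 ^ k) = u + 2 ^ k := rfl
        rw [e1, e2, e3, e4, q_eq, q_eq, ← T_class_zero, ← T_class_zero, ← pow_add, ← pow_add,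
          ← od_succ] at h
        have e5 : 3 ^ (od u k + T^[k] (u + 2 ^ k) % 2) = 3 ^ od (u + 2 ^ k) (k + 1) := by
          rw [od_succ, od_one]
        rw [e5] at h
        have hlt : u + 2 ^ k < 2 ^ (k + 1) := by rw [pow_succ]; omega
        have hlt' : u < 2 ^ (k + 1) := by rw [pow_succ]; omega
        cases hA : dfs lf n (2 ^ (k + 1)) (2 ^ (20 - (k + 1))) u (T^[k + 1] u) (3 ^ od u (k + 1)) with
        | false => rw [hA] at h; exact absurd h (by simp)
        | true =>
            rw [hA] at h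
            exact cov_split (ih (k + 1) u (by omega) hlt' hA)
              (ih (k + 1) (u + 2 ^ k) (by omega) hlt h)
      cases hb1 : Nat.ble (Nat.mul 30 (3 ^ od u k)) (Nat.mul 29 (2 ^ k)) with
      | false =>
          rw [hb1] at h
          exact hsplit h
      | true =>
          cases hb2 : Nat.ble (Nat.mul 30 (Nat.add (T^[k] u) (Nat.mul (3 ^ od u k) (2 ^ (20 - k)))))
            (Nat.mul 29 (Nat.add u 1048576)) with
          | false =>
              rw [hb1, hb2] at h
              exact hsplit h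
          | true =>
              exact stop_sound (by omega) hu (Nat.le_of_ble_eq_true hb1) (Nat.le_of_ble_eq_true hb2)

theorem leaf_cov (u : ℕ) (hu : u < 2 ^ 17) (h : leaf u (T^[17] u) (3 ^ od u 17) = true) : Cov 17 u := by
  intro x _ hxB hmod
  have hxe : x = u + 2 ^ 17 * (x / 2 ^ 17) := by
    have := Nat.mod_add_div x (2 ^ 17)
    rw [hmod] at this
    exact this.symm
  rw [hxe]
  apply leaf_sound hu rfl rfl h
  norm_num
  omega

theorem iterT_eq (m : ℕ) : ∀ y, iterT m y = T^[m] y := by
  induction m with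
  | zero => intro y; rfl
  | succ m ih =>
      intro y
      show iterT m (st y) = _
      rw [ih, st_eq, iter_succ_left]

theorem iterQ_eq (m : ℕ) : ∀ y q, iterQ m y q = q * 3 ^ od y m := by
  induction m with
  | zero => intro y q; show q = q * 3 ^ 0; simp
  | succ m ih =>
      intro y q
      show iterQ m (st y) (Nat.rec q (fun _ _ => Nat.mul 3 q) (Nat.land y 1)) = _
      rw [ih, st_eq, od_succ_left, q_eq, pow_add]
      ring

theorem root_cov (u : ℕ) (hu : u < 2 ^ 13) (h : root u = true) : Cov 13 u := by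
  apply dfs_sound leaf 17 (le_refl _) leaf_cov 4 13 u rfl hu
  unfold root at h
  rw [iterT_eq, iterQ_eq, one_mul] at h
  exact h

/-- membership in a list, kernel friendly. -/
def memL (u : ℕ) (L : List ℕ) : Bool := List.rec false (fun a _ ih => cond (Nat.beq u a) true ih) L

theorem memL_sound (u : ℕ) (L : List ℕ) : memL u L = true → u ∈ L := by
  induction L with
  | nil => intro h; exact absurd h (by simp [memL])
  | cons a L ih =>
      intro h
      have h' : cond (Nat.beq u a) true (memL u L) = true := h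
      cases hb : Nat.beq u a with
      | true =>
          have := Nat.eq_of_beq_eq_true hb
          rw [this]
          exact List.mem_cons_self
      | false =>
          rw [hb] at h'
          exact List.mem_cons_of_mem _ (ih h')

theorem top_sound (L : List ℕ) (hL : ∀ u ∈ L, root u = true)
    (h : dfs (fun u _ _ => memL u L) 13 1 1048576 0 0 1 = true) :
    ∀ x : ℕ, 2 ^ 20 ≤ x → x < 566231040 → Good x := by
  intro x hx hxB
  have := dfs_sound (fun u _ _ => memL u L) 13 (by norm_num)
    (fun u hu h => root_cov u hu (hL u (memL_sound u L h))) 13 0 0 rfl (by norm_num) h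
  exact this x hx hxB (by simp [Nat.mod_one])

end H82Col
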