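import Pool.Agent.H82.Col.Defs

/-! Kernel verification of the residue classes modulo `2^13`, part 1. -/

namespace H82Col

/-- the classes of this part. -/
def L1 : List ℕ := [27, 31, 47, 63, 71, 91, 103, 111, 127, 155, 159, 167, 191, 207, 223, 239, 251, 255, 283, 303, 319, 327, 359, 411, 415, 447, 479, 487, 495, 511, 539, 543, 559, 603, 623, 639, 667]

theorem all1 : ∀ u ∈ L1, root u = true := by
  intro u hu
  simp only [L1, List.mem_cons, List.not_mem_nil, or_false] at hu
  rcases hu with rfl | rfl | rfl | rfl | rfl | rfl | rfl | rfl | rfl | rfl | rfl | rfl | rfl | rfl | rfl | rfl | rfl | rfl | rfl | rfl | rfl | rfl | rfl | rfl | rfl | rfl | rfl | rfl | rfl | rfl | rfl | rfl | rfl | rfl | rfl | rfl | rfl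
  all_goals decide +kernel

end H82Col
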