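import Pool.Agent.H82.Col.Defs

/-! Kernel verification of the residue classes modulo `2^13`, part 2. -/

namespace H82Col

/-- the classes of this part. -/
def L2 : List ℕ := [671, 679, 703, 719, 743, 751, 763, 767, 795, 799, 831, 839, 859, 871, 895, 927, 959, 991, 1007, 1023, 1051, 1055, 1071, 1095, 1115, 1127, 1135, 1151, 1179, 1183, 1191, 1215, 1247, 1255, 1263, 1275, 1279, 1307, 1327, 1343, 1351]

theorem all2 : ∀ u ∈ L2, root u = true := by
  intro u hu
  simp only [L2, List.mem_cons, List.not_mem_nil, or_false] at hu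
  rcases hu with rfl | rfl | rfl | rfl | rfl | rfl | rfl | rfl | rfl | rfl | rfl | rfl | rfl | rfl | rfl | rfl | rfl | rfl | rfl | rfl | rfl | rfl | rfl | rfl | rfl | rfl | rfl | rfl | rfl | rfl | rfl | rfl | rfl | rfl | rfl | rfl | rfl | rfl | rfl | rfl | rfl
  all_goals decide +kernel

end H82Col
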