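import Pool.Agent.H82.Col.Defs

/-! Kernel verification of the residue classes modulo `2^13`, part 3. -/

namespace H82Col

/-- the classes of this part. -/
def L3 : List ℕ := [1383, 1407, 1439, 1471, 1487, 1503, 1511, 1519, 1535, 1563, 1567, 1583, 1627, 1639, 1663, 1691, 1695, 1727, 1743, 1767, 1775, 1791, 1819, 1863, 1883, 1895, 1903, 1919, 1951, 1959, 1983, 2015, 2043, 2047, 2075, 2079, 2095, 2111]

theorem all3 : ∀ u ∈ L3, root u = true := by
  intro u hu
  simp only [L3, List.mem_cons, List.not_mem_nil, or_false] at hu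
  rcases hu with rfl | rfl | rfl | rfl | rfl | rfl | rfl | rfl | rfl | rfl | rfl | rfl | rfl | rfl | rfl | rfl | rfl | rfl | rfl | rfl | rfl | rfl | rfl | rfl | rfl | rfl | rfl | rfl | rfl | rfl | rfl | rfl | rfl | rfl | rfl | rfl | rfl | rfl
  all_goals decide +kernel

end H82Col
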