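import Pool.Agent.H82.Col.Defs

/-! Kernel verification of the residue classes modulo `2^13`, part 4. -/

namespace H82Col

/-- the classes of this part. -/
def L4 : List ℕ := [2119, 2139, 2151, 2159, 2175, 2207, 2215, 2255, 2271, 2279, 2287, 2299, 2303, 2331, 2367, 2375, 2407, 2431, 2459, 2463, 2495, 2511, 2527, 2535, 2543, 2559, 2607, 2651, 2663, 2671, 2687, 2715, 2719, 2727, 2751, 2767]

theorem all4 : ∀ u ∈ L4, root u = true := by
  intro u hu
  simp only [L4, List.mem_cons, List.not_mem_nil, or_false] at hu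
  rcases hu with rfl | rfl | rfl | rfl | rfl | rfl | rfl | rfl | rfl | rfl | rfl | rfl | rfl | rfl | rfl | rfl | rfl | rfl | rfl | rfl | rfl | rfl | rfl | rfl | rfl | rfl | rfl | rfl | rfl | rfl | rfl | rfl | rfl | rfl | rfl | rfl
  all_goals decide +kernel

end H82Col
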