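import Pool.Agent.H82.Col.Defs

/-! Kernel verification of the residue classes modulo `2^13`, part 5. -/

namespace H82Col

/-- the classes of this part. -/
def L5 : List ℕ := [2791, 2799, 2811, 2815, 2843, 2847, 2879, 2887, 2919, 2927, 2943, 2983, 3007, 3039, 3055, 3067, 3071, 3099, 3103, 3135, 3163, 3175, 3183, 3199, 3227, 3231, 3239, 3263, 3279, 3303, 3311, 3323, 3327]

theorem all5 : ∀ u ∈ L5, root u = true := by
  intro u hu
  simp only [L5, List.mem_cons, List.not_mem_nil, or_false] at hu
  rcases hu with rfl | rfl | rfl | rfl | rfl | rfl | rfl | rfl | rfl | rfl | rfl | rfl | rfl | rfl | rfl | rfl | rfl | rfl | rfl | rfl | rfl | rfl | rfl | rfl | rfl | rfl | rfl | rfl | rfl | rfl | rfl | rfl | rfl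
  all_goals decide +kernel

end H82Col
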