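import Pool.Agent.H82.Col.Defs

/-! Kernel verification of the residue classes modulo `2^13`, part 6. -/

namespace H82Col

/-- the classes of this part. -/
def L6 : List ℕ := [3355, 3375, 3391, 3399, 3431, 3455, 3483, 3487, 3519, 3535, 3551, 3567, 3583, 3611, 3615, 3631, 3687, 3695, 3711, 3739, 3743, 3751, 3775, 3791, 3815, 3823, 3835, 3839, 3867, 3871, 3903, 3931, 3943, 3951, 3967, 3999, 4007]

theorem all6 : ∀ u ∈ L6, root u = true := by
  intro u hu
  simp only [L6, List.mem_cons, List.not_mem_nil, or_false] at hu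
  rcases hu with rfl | rfl | rfl | rfl | rfl | rfl | rfl | rfl | rfl | rfl | rfl | rfl | rfl | rfl | rfl | rfl | rfl | rfl | rfl | rfl | rfl | rfl | rfl | rfl | rfl | rfl | rfl | rfl | rfl | rfl | rfl | rfl | rfl | rfl | rfl | rfl | rfl
  all_goals decide +kernel

end H82Col
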