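import Pool.Agent.H82.Col.Defs

/-! Kernel verification of the residue classes modulo `2^13`, part 7. -/

namespace H82Col

/-- the classes of this part. -/
def L7 : List ℕ := [4031, 4079, 4091, 4095, 4123, 4127, 4143, 4159, 4167, 4187, 4199, 4207, 4223, 4251, 4255, 4263, 4287, 4303, 4319, 4335, 4347, 4351, 4379, 4399, 4415, 4423, 4455, 4507, 4511, 4543, 4575, 4583, 4591, 4607, 4635, 4639, 4655, 4699, 4719, 4735]

theorem all7 : ∀ u ∈ L7, root u = true := by
  intro u hu
  simp only [L7, List.mem_cons, List.not_mem_nil, or_false] at hu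
  rcases hu with rfl | rfl | rfl | rfl | rfl | rfl | rfl | rfl | rfl | rfl | rfl | rfl | rfl | rfl | rfl | rfl | rfl | rfl | rfl | rfl | rfl | rfl | rfl | rfl | rfl | rfl | rfl | rfl | rfl | rfl | rfl | rfl | rfl | rfl | rfl | rfl | rfl | rfl | rfl | rfl
  all_goals decide +kernel

end H82Col
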