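import Pool.Agent.H82.Col.Defs

/-! Kernel verification of the residue classes modulo `2^13`, part 8. -/

namespace H82Col

/-- the classes of this part. -/
def L8 : List ℕ := [4763, 4767, 4775, 4799, 4815, 4839, 4847, 4859, 4863, 4891, 4895, 4927, 4935, 4955, 4967, 4991, 5023, 5055, 5087, 5103, 5119, 5147, 5151, 5167, 5191, 5211, 5223, 5231, 5247, 5275, 5279, 5287, 5311, 5343, 5351, 5359]

theorem all8 : ∀ u ∈ L8, root u = true := by
  intro u hu
  simp only [L8, List.mem_cons, List.not_mem_nil, or_false] at hu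
  rcases hu with rfl | rfl | rfl | rfl | rfl | rfl | rfl | rfl | rfl | rfl | rfl | rfl | rfl | rfl | rfl | rfl | rfl | rfl | rfl | rfl | rfl | rfl | rfl | rfl | rfl | rfl | rfl | rfl | rfl | rfl | rfl | rfl | rfl | rfl | rfl | rfl
  all_goals decide +kernel

end H82Col
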