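import Pool.Agent.H82.Col.Defs

/-! Kernel verification of the residue classes modulo `2^13`, part 9. -/

namespace H82Col

/-- the classes of this part. -/
def L9 : List ℕ := [5371, 5375, 5403, 5423, 5439, 5447, 5479, 5503, 5535, 5567, 5583, 5599, 5607, 5615, 5631, 5659, 5663, 5679, 5723, 5735, 5759, 5787, 5791, 5823, 5839, 5863, 5871, 5887, 5915, 5959, 5979, 5991, 5999, 6015, 6047, 6055, 6079, 6111, 6139, 6143, 6171]

theorem all9 : ∀ u ∈ L9, root u = true := by
  intro u hu
  simp only [L9, List.mem_cons, List.not_mem_nil, or_false] at hu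
  rcases hu with rfl | rfl | rfl | rfl | rfl | rfl | rfl | rfl | rfl | rfl | rfl | rfl | rfl | rfl | rfl | rfl | rfl | rfl | rfl | rfl | rfl | rfl | rfl | rfl | rfl | rfl | rfl | rfl | rfl | rfl | rfl | rfl | rfl | rfl | rfl | rfl | rfl | rfl | rfl | rfl | rfl
  all_goals decide +kernel

end H82Col
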