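import Pool.Agent.H82.Col.Defs

/-! Kernel verification of the residue classes modulo `2^13`, part 10. -/

namespace H82Col

/-- the classes of this part. -/
def L10 : List ℕ := [6175, 6191, 6207, 6215, 6235, 6247, 6255, 6271, 6303, 6311, 6351, 6367, 6375, 6383, 6395, 6399, 6427, 6463, 6471, 6503, 6527, 6555, 6559, 6591, 6607, 6623, 6631, 6639, 6655, 6703, 6747, 6759, 6767, 6783, 6811, 6815, 6823, 6847]

theorem all10 : ∀ u ∈ L10, root u = true := by
  intro u hu
  simp only [L10, List.mem_cons, List.not_mem_nil, or_false] at hu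
  rcases hu with rfl | rfl | rfl | rfl | rfl | rfl | rfl | rfl | rfl | rfl | rfl | rfl | rfl | rfl | rfl | rfl | rfl | rfl | rfl | rfl | rfl | rfl | rfl | rfl | rfl | rfl | rfl | rfl | rfl | rfl | rfl | rfl | rfl | rfl | rfl | rfl | rfl | rfl
  all_goals decide +kernel

end H82Col
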