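import Pool.Agent.H82.Col.Defs

/-! Kernel verification of the residue classes modulo `2^13`, part 11. -/

namespace H82Col

/-- the classes of this part. -/
def L11 : List ℕ := [6863, 6887, 6895, 6907, 6911, 6939, 6943, 6975, 6983, 7015, 7023, 7039, 7079, 7103, 7135, 7151, 7163, 7167, 7195, 7199, 7231, 7259, 7271, 7279, 7295, 7323, 7327, 7335, 7359, 7375, 7399, 7407, 7419, 7423, 7451, 7471, 7487]

theorem all11 : ∀ u ∈ L11, root u = true := by
  intro u hu
  simp only [L11, List.mem_cons, List.not_mem_nil, or_false] at hu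
  rcases hu with rfl | rfl | rfl | rfl | rfl | rfl | rfl | rfl | rfl | rfl | rfl | rfl | rfl | rfl | rfl | rfl | rfl | rfl | rfl | rfl | rfl | rfl | rfl | rfl | rfl | rfl | rfl | rfl | rfl | rfl | rfl | rfl | rfl | rfl | rfl | rfl | rfl
  all_goals decide +kernel

end H82Col
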