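import Pool.Agent.H82.Col.Defs

/-! Kernel verification of the residue classes modulo `2^13`, part 12. -/

namespace H82Col

/-- the classes of this part. -/
def L12 : List ℕ := [7495, 7527, 7551, 7579, 7583, 7615, 7631, 7647, 7663, 7679, 7707, 7711, 7727, 7783, 7791, 7807, 7835, 7839, 7847, 7871, 7887, 7911, 7919, 7931, 7935, 7963, 7967, 7999, 8027, 8039, 8047, 8063, 8095, 8103, 8127, 8175, 8187, 8191]

theorem all12 : ∀ u ∈ L12, root u = true := by
  intro u hu
  simp only [L12, List.mem_cons, List.not_mem_nil, or_false] at hu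
  rcases hu with rfl | rfl | rfl | rfl | rfl | rfl | rfl | rfl | rfl | rfl | rfl | rfl | rfl | rfl | rfl | rfl | rfl | rfl | rfl | rfl | rfl | rfl | rfl | rfl | rfl | rfl | rfl | rfl | rfl | rfl | rfl | rfl | rfl | rfl | rfl | rfl | rfl | rfl
  all_goals decide +kernel

end H82Col
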