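import Pool.Agent.H82.Col.Defs

/-! Soundness of the packed verification. -/

namespace H82Col

open H1Col Finset

/-! ### packed constants -/

attribute [local irreducible] pk ones ones0 idx0 rep five idx9 high tops idx vs5 vs loop

theorem pk_geom (w n : ℕ) : pk w (fun _ => 1) n * (2 ^ w - 1) = 2 ^ (w * n) - 1 := by
  have key : pk w (fun _ => 1) n * 2 ^ w + 1 = pk w (fun _ => 1) n + 2 ^ (w * n) := by
    induction n with
    | zero => simp
    | succ n ih =>
        rw [pk_succ, Nat.mul_succ, pow_add, one_mul, add_mul]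
        omega
  rw [Nat.mul_sub, mul_one]
  omega

theorem pk_id (w n : ℕ) : pk w (fun i => i) n * 2 ^ w + pk w (fun _ => 1) n + 2 ^ (w * n)
    = pk w (fun i => i) n + n * 2 ^ (w * n) + 1 := by
  induction n with
  | zero => simp
  | succ n ih =>
      rw [pk_succ, pk_succ, Nat.mul_succ w n, pow_add, one_mul, add_mul]
      have e : (n + 1) * (2 ^ (w * n) * 2 ^ w) = n * 2 ^ (w * n) * 2 ^ w + 2 ^ (w * n) * 2 ^ w := by
        ring
      rw [e]
      omega

theorem pk_mul_pk (w : ℕ) {n : ℕ} (hn : 0 < n) (m : ℕ) (a c : ℕ → ℕ) :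
    pk w a n * pk (w * n) c m = pk w (fun j => a (j % n) * c (j / n)) (n * m) := by
  induction m with
  | zero => simp
  | succ m ih =>
      rw [pk_succ, Nat.mul_succ, pk_append, Nat.mul_add, ih]
      congr 1
      have : pk w (fun i => a ((i + n * m) % n) * c ((i + n * m) / n)) n = pk w a n * c m := by
        rw [pk_mul]
        apply pk_congr
        intro i hi
        rw [Nat.add_mul_mod_self_left, Nat.mod_eq_of_lt hi, Nat.add_mul_div_left _ _ hn,
          Nat.div_eq_of_lt hi, zero_add]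
      rw [this, show w * n * m = w * (n * m) by ring]
      ring

theorem pk_five (w : ℕ) (f : ℕ → ℕ) : pk w f 5
    = f 0 + 2 ^ w * (f 1 + 2 ^ w * (f 2 + 2 ^ w * (f 3 + 2 ^ w * f 4))) := by
  simp only [pk_succ', pk_zero, Nat.mul_zero, Nat.add_zero]

theorem ones_eq : ones = pk 64 (fun _ => 1) 2400 := by
  unfold ones msk
  rw [show (153600 : ℕ) = 64 * 2400 from rfl, ← pk_geom 64 2400]
  exact Nat.mul_div_cancel _ (by norm_num)

theorem ones0_eq : ones0 = pk 64 (fun _ => 1) 480 := by
  unfold ones0 msk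
  rw [show (30720 : ℕ) = 64 * 480 from rfl, ← pk_geom 64 480]
  exact Nat.mul_div_cancel _ (by norm_num)

theorem rep_eq : rep = pk 30720 (fun _ => 1) 5 := by
  unfold rep
  rw [show (153600 : ℕ) = 30720 * 5 from rfl, ← pk_geom 30720 5]
  exact Nat.mul_div_cancel _ (Nat.sub_pos_of_lt (Nat.one_lt_two_pow (by norm_num)))

theorem idx0_eq : idx0 = pk 64 (fun i => i) 480 := by
  unfold idx0 msk
  rw [ones0_eq, show (30720 : ℕ) = 64 * 480 from rfl]
  have h := pk_id 64 480
  have e : 479 * 2 ^ (64 * 480) + 1 - pk 64 (fun _ => 1) 480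
      = pk 64 (fun i => i) 480 * (2 ^ 64 - 1) := by
    rw [Nat.mul_sub, mul_one]
    generalize (2 : ℕ) ^ (64 * 480) = Z at *
    generalize pk 64 (fun _ => 1) 480 = O at *
    generalize pk 64 (fun i => i) 480 = X at *
    generalize X * 2 ^ 64 = Y at *
    omega
  rw [e]
  exact Nat.mul_div_cancel _ (by norm_num)

/-- the five residues modulo 9. -/
def aa : ℕ → ℕ
  | 0 => 0
  | 1 => 2
  | 2 => 3
  | 3 => 5
  | _ => 6

def sel (r b : ℕ) : ℕ := (7 * r + aa b) % 9

/-- the index of the field `j`. -/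
def ij (r j : ℕ) : ℕ := 9 * (j % 480) + sel r (j / 480)

theorem five_eq (r : ℕ) : five (7 * r % 9) ((7 * r + 2) % 9) ((7 * r + 3) % 9) ((7 * r + 5) % 9)
    ((7 * r + 6) % 9) = pk 30720 (sel r) 5 := by
  rw [pk_five]
  unfold five
  simp only [sel, aa, Nat.add_zero]

theorem idx_eq (r : ℕ) : idx r = pk 64 (ij r) 2400 := by
  unfold idx idx9
  rw [five_eq, idx0_eq, rep_eq, ones0_eq, mul_assoc]
  have h1 := pk_mul_pk 64 (n := 480) (by norm_num) 5 (fun i => i) (fun _ => 1)
  have h2 := pk_mul_pk 64 (n := 480) (by norm_num) 5 (fun _ => 1) (sel r)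
  rw [show (64 * 480 : ℕ) = 30720 from rfl, show (480 * 5 : ℕ) = 2400 from rfl] at h1 h2
  rw [h1, h2, mul_comm 9, pk_mul, pk_add]
  apply pk_congr
  intro i _
  unfold ij
  ring

theorem const_eq (c : ℕ) : c * ones = pk 64 (fun _ => c) 2400 := by
  rw [mul_comm, ones_eq, pk_const_mul]

theorem high_eq : high = pk 64 (fun _ => 2 ^ 63) 2400 := by
  unfold high; exact const_eq _

theorem tops_eq : tops = pk 64 (fun _ => 15 * 2 ^ 60) 2400 := by
  unfold tops; exact const_eq _

theorem vs_pk {f : ℕ → ℕ} (h : ∀ i < 2400, f i < 2 ^ 64) :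
    vs (pk 64 f 2400) = pk 64 (fun i => T (f i)) 2400 := by
  unfold vs
  rw [ones_eq]
  exact vstep_pk (by norm_num) h

/-! ### growth -/

theorem T_le_two (y : ℕ) : T y ≤ 2 * y := by
  unfold T; split_ifs <;> omega

theorem T_growth (y : ℕ) : 2 * (T y + 1) ≤ 3 * (y + 1) := by
  unfold T; split_ifs <;> omega

theorem iter_le_two (y t : ℕ) : T^[t] y ≤ 2 ^ t * y := by
  induction t with
  | zero => simp
  | succ t ih =>
      rw [iter_succ]
      calc T (T^[t] y) ≤ 2 * T^[t] y := T_le_two _
        _ ≤ 2 * (2 ^ t * y) := by omega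
        _ = 2 ^ (t + 1) * y := by ring

theorem vs5_pk {f : ℕ → ℕ} (h : ∀ i < 2400, f i < 2 ^ 60) :
    vs5 (pk 64 f 2400) = pk 64 (fun i => T^[5] (f i)) 2400 := by
  unfold vs5
  rw [vs_pk, vs_pk, vs_pk, vs_pk, vs_pk]
  · rfl
  all_goals
    intro i hi
    have h0 := h i hi
    have g1 := T_le_two (f i)
    have g2 := T_le_two (T (f i))
    have g3 := T_le_two (T (T (f i)))
    have g4 := T_le_two (T (T (T (f i))))
    norm_num at h0 ⊢
    omega

theorem T5_lt {y : ℕ} (h : y < 2 ^ 60) : T^[5] y < 2 ^ 63 := by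
  have g1 := T_growth y
  have g2 := T_growth (T y)
  have g3 := T_growth (T (T y))
  have g4 := T_growth (T (T (T y)))
  have g5 := T_growth (T (T (T (T y))))
  show T (T (T (T (T y)))) < 2 ^ 63
  norm_num at h ⊢
  omega

/-! ### bits -/

theorem land_high {a : ℕ} (ha : a < 2 ^ 64) : (a &&& 2 ^ 63).testBit 63 = decide (2 ^ 63 ≤ a) := by
  rw [Nat.testBit_and, Nat.testBit_two_pow_self, Bool.and_true]
  rw [Nat.testBit_eq_decide_div_mod_eq]
  congr 1
  apply propext
  norm_num at ha ⊢
  omega

theorem lt_of_land_tops {a : ℕ} (ha : a < 2 ^ 64) (h : a &&& (15 * 2 ^ 60) = 0) : a < 2 ^ 60 := by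
  apply Nat.lt_pow_two_of_testBit
  intro i hi
  by_cases h4 : i < 64
  · have := congrArg (fun z => z.testBit i) h
    simp only [Nat.testBit_and, Nat.zero_testBit] at this
    have e : (15 * 2 ^ 60 : ℕ).testBit i = true := by
      have : i = 60 ∨ i = 61 ∨ i = 62 ∨ i = 63 := by omega
      rcases this with rfl | rfl | rfl | rfl <;> decide
    rw [e, Bool.and_true] at this
    exact this
  · apply Nat.testBit_lt_two_pow
    exact lt_of_lt_of_le ha (Nat.pow_le_pow_right (by norm_num) (by omega))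

theorem pk_eq_zero {w : ℕ} {f : ℕ → ℕ} {n : ℕ} (h : pk w f n = 0) : ∀ i < n, f i = 0 := by
  intro i hi
  unfold pk at h
  rw [sum_eq_zero_iff] at h
  have := h i (mem_range.mpr hi)
  have hp : 0 < 2 ^ (w * i) := by positivity
  rcases Nat.mul_eq_zero.mp this with h | h
  · exact h
  · omega

theorem field_eq {f : ℕ → ℕ} (h : ∀ i < 2400, f i < 2 ^ 64) {j : ℕ} (hj : j < 2400) :
    (pk 64 f 2400 >>> (64 * j)) % 2 ^ 64 = f j := by
  rw [Nat.shiftRight_eq_div_pow, pk_div (by omega) (fun i hi => h i (by omega))]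
  have := pk_mod (w := 64) (f := fun i => f (i + j)) (m := 1) (n := 2400 - j) (by omega)
    (fun i hi => h _ (by omega))
  rw [mul_one] at this
  rw [this, pk_succ, pk_zero]
  simp

/-! ### individual descents -/

theorem st_eq (y : ℕ) : st y = T y := by
  have hl : Nat.land y 1 = y % 2 := land_one_eq y
  unfold st
  rw [hl]
  rcases Nat.mod_two_eq_zero_or_one y with h | h
  · rw [h, T_even h]
    exact Nat.shiftRight_eq_div_pow _ _
  · rw [h, T_odd h]
    exact Nat.shiftRight_eq_div_pow _ _

theorem ind_succ (h m y : ℕ) : ind h (m + 1) y = cond (Nat.ble y h) true (ind h m (st y)) := rfl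

theorem ind_sound (h : ℕ) : ∀ m y, ind h m y = true → ∃ s ≤ m, T^[s] y ≤ h := by
  intro m
  induction m with
  | zero =>
      intro y hy
      exact ⟨0, le_refl _, Nat.le_of_ble_eq_true hy⟩
  | succ m ih =>
      intro y hy
      rw [ind_succ] at hy
      cases hb : Nat.ble y h with
      | true => exact ⟨0, Nat.zero_le _, Nat.le_of_ble_eq_true hb⟩
      | false =>
          rw [hb, st_eq] at hy
          obtain ⟨s, hs, h1⟩ := ih _ hy
          refine ⟨s + 1, by omega, ?_⟩
          rw [iter_succ_left]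
          exact h1

theorem ext_zero (HH N j U : ℕ) : ext HH N 0 j U = Nat.rec true (fun _ _ =>
      ind (Nat.land (Nat.shiftRight HH (Nat.mul 64 j)) 9223372036854775807) 235
        (Nat.land (Nat.shiftRight N (Nat.mul 64 j)) msk)) U := rfl

theorem ext_succ (HH N m j U : ℕ) : ext HH N (m + 1) j U = Nat.rec true (fun _ _ =>
      cond (ext HH N m j (Nat.mod U (Nat.pow 2 (Nat.mul 64 (Nat.pow 2 m)))))
        (ext HH N m (Nat.add j (Nat.pow 2 m)) (Nat.shiftRight U (Nat.mul 64 (Nat.pow 2 m)))) false) U := rfl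

theorem ext_sound (HH N : ℕ) : ∀ m j U, ext HH N m j U = true → ∀ i < 2 ^ m,
    U.testBit (64 * i + 63) = true →
    ind ((HH >>> (64 * (j + i))) &&& 9223372036854775807) 235 ((N >>> (64 * (j + i))) &&& msk) = true := by
  intro m
  induction m with
  | zero =>
      intro j U h i hi hb
      have hi0 : i = 0 := by simpa using hi
      subst hi0
      rw [ext_zero] at h
      cases U with
      | zero => simp at hb
      | succ U => exact h
  | succ m ih =>
      intro j U h i hi hb
      rw [ext_succ] at h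
      cases U with
      | zero => simp at hb
      | succ U =>
          have h' : cond (ext HH N m j ((U + 1) % 2 ^ (64 * 2 ^ m)))
            (ext HH N m (j + 2 ^ m) ((U + 1) >>> (64 * 2 ^ m))) false = true := h
          have hA : ext HH N m j ((U + 1) % 2 ^ (64 * 2 ^ m)) = true := by
            cases hh : ext HH N m j ((U + 1) % 2 ^ (64 * 2 ^ m)) with
            | true => rfl
            | false => rw [hh] at h'; exact absurd h' (by simp)
          have hB : ext HH N m (j + 2 ^ m) ((U + 1) >>> (64 * 2 ^ m)) = true := by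
            rw [hA] at h'; exact h'
          by_cases hlt : i < 2 ^ m
          · apply ih j _ hA i hlt
            rw [Nat.testBit_mod_two_pow, hb, Bool.and_true, decide_eq_true_eq]
            have : 64 * (i + 1) ≤ 64 * 2 ^ m := Nat.mul_le_mul_left _ hlt
            omega
          · push Not at hlt
            obtain ⟨i', rfl⟩ := Nat.exists_eq_add_of_le hlt
            have := ih (j + 2 ^ m) _ hB i' (by rw [pow_succ] at hi; omega) (by
              rw [Nat.testBit_shiftRight, show 64 * 2 ^ m + (64 * i' + 63) = 64 * (2 ^ m + i') + 63 by ring]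
              exact hb)
            rw [Nat.add_assoc] at this
            exact this

/-! ### the loop -/

def Inv (x : ℕ → ℕ) (t N F : ℕ) : Prop :=
  N = pk 64 (fun j => T^[t] (x j)) 2400 ∧ (∀ j < 2400, T^[t] (x j) < 2 ^ 60) ∧
  ∀ j < 2400, F.testBit (64 * j + 63) = true → ∃ s ≤ t, T^[s] (x j) ≤ x j / 2

theorem loopG_zero (vf : ℕ → ℕ) (hi tp HH : ℕ) (K : ℕ → ℕ → Bool) (N F : ℕ) :
    loopG vf hi tp HH K 0 N F = K N F := rfl

theorem loopG_succ (vf : ℕ → ℕ) (hi tp HH : ℕ) (K : ℕ → ℕ → Bool) (m N F : ℕ) :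
    loopG vf hi tp HH K (m + 1) N F =
    Nat.rec (loopG vf hi tp HH K m (vf N) (Nat.lor F (Nat.land (Nat.sub HH (vf N)) hi)))
        (fun _ _ => false) (Nat.land (vf N) tp) := rfl

theorem rec_false {A : Bool} {n : ℕ} (h : (Nat.rec A (fun _ _ => false) n : Bool) = true) :
    n = 0 ∧ A = true := by
  cases n with
  | zero => exact ⟨rfl, h⟩
  | succ n => exact absurd h (by simp)

theorem loop_sound {x : ℕ → ℕ} (hx : ∀ j < 2400, x j < 2 ^ 60) {HH : ℕ}
    (hHH : HH = pk 64 (fun j => x j / 2 + 2 ^ 63) 2400) (K : ℕ → ℕ → Bool) :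
    ∀ m t N F, Inv x t N F → loopG vs5 high tops HH K m N F = true →
    ∃ t' N' F', t' ≤ t + 5 * m ∧ Inv x t' N' F' ∧ K N' F' = true := by
  intro m
  induction m with
  | zero =>
      intro t N F hI h
      exact ⟨t, N, F, by omega, hI, h⟩
  | succ m ih =>
      intro t N F hI h
      obtain ⟨h1, h2, h3⟩ := hI
      rw [loopG_succ] at h
      obtain ⟨hz, hA⟩ := rec_false h
      have hv : vs5 N = pk 64 (fun j => T^[t + 5] (x j)) 2400 := by
        rw [h1, vs5_pk h2]
        apply pk_congr
        intro i _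
        show T^[5] (T^[t] (x i)) = T^[t + 5] (x i)
        rw [← iter_add, Nat.add_comm]
      have hlt : ∀ j < 2400, T^[t + 5] (x j) < 2 ^ 63 := by
        intro j hj
        rw [Nat.add_comm, iter_add]
        exact T5_lt (h2 j hj)
      have hlt4 : ∀ j < 2400, T^[t + 5] (x j) < 2 ^ 64 := fun j hj =>
        lt_trans (hlt j hj) (by norm_num)
      have hz' : pk 64 (fun j => T^[t + 5] (x j)) 2400 &&& tops = 0 := by rw [← hv]; exact hz
      rw [tops_eq, pk_land hlt4 (fun i _ => by norm_num)] at hz'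
      have hlt0 : ∀ j < 2400, T^[t + 5] (x j) < 2 ^ 60 := fun j hj =>
        lt_of_land_tops (hlt4 j hj) (pk_eq_zero hz' j hj)
      have h3' : ∀ j < 2400, (Nat.lor F (Nat.land (Nat.sub HH (vs5 N)) high)).testBit (64 * j + 63) = true →
          ∃ s ≤ t + 5, T^[s] (x j) ≤ x j / 2 := by
        intro j hj hb
        have hb' : (F ||| ((HH - vs5 N) &&& high)).testBit (64 * j + 63) = true := hb
        rw [Nat.testBit_or, Bool.or_eq_true] at hb'
        rcases hb' with hb' | hb'
        · obtain ⟨s, hs, h⟩ := h3 j hj hb'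
          exact ⟨s, by omega, h⟩
        · refine ⟨t + 5, le_refl _, ?_⟩
          have hf : ∀ i < 2400, x i / 2 + 2 ^ 63 - T^[t + 5] (x i) < 2 ^ 64 := by
            intro i hi
            have := hx i hi
            norm_num at this ⊢
            omega
          rw [hv, hHH, pk_sub (fun i hi => by have := hlt i hi; omega), high_eq,
            pk_land hf (fun i _ => by norm_num)] at hb'
          rw [pk_testBit (fun i hi => lt_of_le_of_lt Nat.and_le_left (hf i hi)) j hj 63 (by norm_num),
            land_high (hf j hj), decide_eq_true_eq] at hb'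
          have := hlt j hj
          omega
      obtain ⟨t', N', F', ht', hI', hK'⟩ := ih (t + 5) _ _ ⟨hv, hlt0, h3'⟩ hA
      exact ⟨t', N', F', by omega, hI', hK'⟩

/-! ### classes -/

theorem class_iter (u k i : ℕ) :
    T^[k] (u + 2 ^ k * i) = T^[k] u + 3 ^ od u k * i := by
  induction k generalizing i with
  | zero => simp
  | succ k ih =>
      rw [iter_succ, iter_succ, pow_succ, mul_assoc, ih, od_succ]
      rcases Nat.mod_two_eq_zero_or_one (T^[k] u) with h | h
      · rw [h, Nat.add_zero]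
        have h' : (T^[k] u + 3 ^ od u k * (2 * i)) % 2 = 0 := by
          have : 3 ^ od u k * (2 * i) = 2 * (3 ^ od u k * i) := by ring
          omega
        rw [T_even h, T_even h']
        have : 3 ^ od u k * (2 * i) = 2 * (3 ^ od u k * i) := by ring
        omega
      · rw [h]
        have e : 3 ^ od u k * (2 * i) = 2 * (3 ^ od u k * i) := by ring
        have h' : (T^[k] u + 3 ^ od u k * (2 * i)) % 2 = 1 := by omega
        rw [T_odd h, T_odd h', pow_succ, e]
        have e2 : 3 ^ od u k * 3 * i = 3 * (3 ^ od u k * i) := by ring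
        rw [e2]
        omega

def Good (x : ℕ) : Prop :=
  x % 3 = 2 ∨ x % 9 = 4 ∨ (∃ t ≤ 17, 30 * T^[t] x ≤ 29 * x) ∨ (∃ t ≤ 402, 2 * T^[t] x ≤ x)

theorem sel_exists : ∀ r < 9, ∀ e < 9, (r + 5 * e) % 3 ≠ 2 → (r + 5 * e) % 9 ≠ 4 →
    ∃ b < 5, sel r b = e := by decide

theorem leaf_sound {u v q : ℕ} (hu : u < 2 ^ 17) (hv : v = T^[17] u) (hq : q = 3 ^ od u 17)
    (h : leaf u v q = true) {i : ℕ} (hi : i < 4320) : Good (u + 2 ^ 17 * i) := by
  by_cases s1 : (u + 2 ^ 17 * i) % 3 = 2
  · exact Or.inl s1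
  by_cases s2 : (u + 2 ^ 17 * i) % 9 = 4
  · exact Or.inr (Or.inl s2)
  right; right; right
  -- the field
  obtain ⟨b, hb, hs⟩ := sel_exists (u % 9) (Nat.mod_lt _ (by norm_num)) (i % 9)
    (Nat.mod_lt _ (by norm_num)) (by omega) (by omega)
  set x : ℕ → ℕ := fun j => u + 2 ^ 17 * ij (u % 9) j with hxdef
  have hjlt : 480 * b + i / 9 < 2400 := by omega
  have hxj : x (480 * b + i / 9) = u + 2 ^ 17 * i := by
    have h1 : (480 * b + i / 9) % 480 = i / 9 := by omega
    have h2 : (480 * b + i / 9) / 480 = b := by omega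
    simp only [hxdef, ij]
    rw [h1, h2, hs]
    congr 2
    omega
  have hij : ∀ j < 2400, ij (u % 9) j < 4320 := by
    intro j hj
    have : sel (u % 9) (j / 480) < 9 := Nat.mod_lt _ (by norm_num)
    unfold ij
    omega
  have hx : ∀ j < 2400, x j < 2 ^ 30 := by
    intro j hj
    have := hij j hj
    simp only [hxdef]
    norm_num at hu ⊢
    omega
  have hHH : 2 ^ 16 * idx (u % 9) + (u / 2 * ones + high)
      = pk 64 (fun j => x j / 2 + 2 ^ 63) 2400 := by
    rw [idx_eq, high_eq, const_eq, mul_comm, pk_mul, pk_add, pk_add]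
    apply pk_congr
    intro j _
    simp only [hxdef]
    omega
  have hN : q * idx (u % 9) + v * ones = pk 64 (fun j => T^[17] (x j)) 2400 := by
    rw [idx_eq, const_eq, mul_comm, pk_mul, pk_add]
    apply pk_congr
    intro j _
    simp only [hxdef]
    rw [class_iter, hv, hq]
    ring
  have hI : Inv x 17 (q * idx (u % 9) + v * ones) 0 := by
    refine ⟨hN, ?_, ?_⟩
    · intro j hj
      have h1 := hx j hj
      have h2 := iter_le_two (x j) 17
      norm_num at h1 h2 ⊢
      omega
    · intro j _ hb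
      simp at hb
  have hloop := h
  unfold leaf loop at hloop
  obtain ⟨t', N', F', ht', ⟨h1, h2, h3⟩, hK⟩ := loop_sound
    (fun j hj => lt_trans (hx j hj) (by norm_num)) hHH _ 30 17 _ _ hI hloop
  have hK' : ext (2 ^ 16 * idx (u % 9) + (u / 2 * ones + high)) N' 12 0 (Nat.xor high F') = true := hK
  rw [← hxj]
  generalize 480 * b + i / 9 = j at hjlt hxj
  by_cases hbF : F'.testBit (64 * j + 63) = true
  · obtain ⟨s, hs, h⟩ := h3 j hjlt hbF
    exact ⟨s, by omega, by omega⟩
  · have hbit : (high ^^^ F').testBit (64 * j + 63) = true := by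
      rw [Nat.testBit_xor, high_eq,
        pk_testBit (fun i _ => by norm_num) j hjlt 63 (by norm_num), Nat.testBit_two_pow_self]
      simpa using hbF
    have := ext_sound _ _ 12 0 _ hK' j (by norm_num; omega) hbit
    rw [hHH, h1, zero_add] at this
    have e1 : (pk 64 (fun j => T^[t'] (x j)) 2400 >>> (64 * j)) &&& msk = T^[t'] (x j) := by
      unfold msk
      rw [Nat.and_two_pow_sub_one_eq_mod]
      exact field_eq (fun i hi => lt_trans (h2 i hi) (by norm_num)) hjlt
    have e2 : (pk 64 (fun j => x j / 2 + 2 ^ 63) 2400 >>> (64 * j)) &&& 9223372036854775807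
        = x j / 2 := by
      rw [show (9223372036854775807 : ℕ) = 2 ^ 63 - 1 by norm_num, Nat.and_two_pow_sub_one_eq_mod]
      have hf := field_eq (f := fun j => x j / 2 + 2 ^ 63) (fun i hi => by
        have := hx i hi
        norm_num at this ⊢
        omega) hjlt
      have hxx := hx j hjlt
      generalize pk 64 (fun j => x j / 2 + 2 ^ 63) 2400 >>> (64 * j) = Z at hf ⊢
      norm_num at hf hxx ⊢
      omega
    rw [e1, e2] at this
    obtain ⟨s, hs, h⟩ := ind_sound _ _ _ this
    refine ⟨s + t', by omega, ?_⟩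
    rw [iter_add]
    omega

end H82Col
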