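import Pool.Agent.H82.Col.Dfs
import Pool.Agent.H82.Col.K01
import Pool.Agent.H82.Col.K02
import Pool.Agent.H82.Col.K03
import Pool.Agent.H82.Col.K04
import Pool.Agent.H82.Col.K05
import Pool.Agent.H82.Col.K06
import Pool.Agent.H82.Col.K07
import Pool.Agent.H82.Col.K08
import Pool.Agent.H82.Col.K09
import Pool.Agent.H82.Col.K10
import Pool.Agent.H82.Col.K11
import Pool.Agent.H82.Col.K12

/-! Every `x` with `2^20 ≤ x < 566231040` is in a sieved class or descends. -/

namespace H82Col

open H1Col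

/-- all surviving classes modulo `2^13`. -/
def LL : List ℕ := L1 ++ (L2 ++ (L3 ++ (L4 ++ (L5 ++ (L6 ++ (L7 ++ (L8 ++ (L9 ++ (L10 ++ (L11 ++ L12))))))))))

theorem allL : ∀ u ∈ LL, root u = true := by
  intro u hu
  unfold LL at hu
  simp only [List.mem_append] at hu
  rcases hu with h | h | h | h | h | h | h | h | h | h | h | h
  · exact all1 u h
  · exact all2 u h
  · exact all3 u h
  · exact all4 u h
  · exact all5 u h
  · exact all6 u h
  · exact all7 u h
  · exact all8 u h
  · exact all9 u h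
  · exact all10 u h
  · exact all11 u h
  · exact all12 u h

theorem top : dfs (fun u _ _ => memL u LL) 13 1 1048576 0 0 1 = true := by decide +kernel

end H82Col

namespace H1Col

/-- Module V2: descents. -/
theorem V2 : ∀ x : ℕ, 2 ^ 20 ≤ x → x < 566231040 → x % 3 = 2 ∨ x % 9 = 4 ∨
    (∃ t ≤ 17, 30 * T^[t] x ≤ 29 * x) ∨ (∃ t ≤ 402, 2 * T^[t] x ≤ x) :=
  H82Col.top_sound H82Col.LL H82Col.allL H82Col.top

end H1Col
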